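import Pool.Agent.Helper54.FP.Inst

/-!
# FP-17: an evaluation homomorphism of `k[w]⟦t⟧[1/t,1/w]` close to a homomorphism to `k((t))`
-/

set_option autoImplicit false

namespace Pool.Agent.Helper54.FP

namespace HomNu

section
variable (k : Type) [Field k]

/-- `1 - z X^a` -/
noncomputable def nuU (a : ℕ) : A0 k := 1 - PowerSeries.X ^ a * PowerSeries.C (LaurentPolynomial.T 1)

/-- the inverse of `1 - z X^a` -/
noncomputable def nuE (a : ℕ) : A0 k := PowerSeries.invOfUnit (nuU k a) 1

theorem nuU_mul_nuE (a : ℕ) (ha : 0 < a) : nuU k a * nuE k a = 1 := by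
  apply PowerSeries.mul_invOfUnit
  simp [nuU, ha.ne']

/-- the image of `w` -/
noncomputable def nuW (a : ℕ) : A0 k := - PowerSeries.X * nuE k a

/-- the map on `k[w]` -/
noncomputable def nuP (a : ℕ) : Polynomial k →+* A0 k :=
  Polynomial.eval₂RingHom (PowerSeries.C.comp LaurentPolynomial.C) (nuW k a)

/-- the map on `k[w]⟦t⟧` -/
noncomputable def nuM (a : ℕ) : Pk k →+* A0 k := ext (nuP k a)

/-- `w ↦ -t` -/
noncomputable def nu0P : Polynomial k →+* PowerSeries k :=
  Polynomial.eval₂RingHom PowerSeries.C (- PowerSeries.X)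

/-- `w ↦ -t` -/
noncomputable def nu0 : Pk k →+* PowerSeries k := ext (nu0P k)

/-- `k⟦t⟧ → A0` -/
noncomputable def io : PowerSeries k →+* A0 k := PowerSeries.map LaurentPolynomial.C

theorem nuP_sub (a : ℕ) (ha : 0 < a) (q : Polynomial k) :
    (PowerSeries.X : A0 k) ^ a ∣ nuP k a q - io k (nu0P k q) := by
  rw [← Ideal.mem_span_singleton, ← Ideal.Quotient.eq_zero_iff_mem, map_sub, sub_eq_zero]
  have h : (Ideal.Quotient.mk (Ideal.span {(PowerSeries.X : A0 k) ^ a})).comp (nuP k a) =
      (Ideal.Quotient.mk (Ideal.span {(PowerSeries.X : A0 k) ^ a})).comp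
        ((io k).comp (nu0P k)) := by
    apply Polynomial.ringHom_ext
    · intro c
      simp [nuP, nu0P, io]
    · simp only [RingHom.comp_apply]
      rw [← sub_eq_zero, ← map_sub, Ideal.Quotient.eq_zero_iff_mem, Ideal.mem_span_singleton]
      have h1 : nuP k a Polynomial.X = nuW k a := by simp [nuP]
      have h2 : io k (nu0P k Polynomial.X) = - PowerSeries.X := by simp [io, nu0P]
      rw [h1, h2, nuW]
      refine ⟨- PowerSeries.X * PowerSeries.C (LaurentPolynomial.T 1) * nuE k a, ?_⟩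
      have h3 := nuU_mul_nuE k a ha
      rw [nuU] at h3
      linear_combination (-PowerSeries.X) * h3
  exact RingHom.congr_fun h q

theorem nuM_sub (a : ℕ) (ha : 0 < a) (b : Pk k) :
    (PowerSeries.X : A0 k) ^ a ∣ nuM k a b - io k (nu0 k b) := by
  rw [PowerSeries.X_pow_dvd_iff]
  intro n hn
  rw [map_sub, nuM, nu0, io, PowerSeries.coeff_map, coeff_ext, coeff_ext, map_sum,
    ← Finset.sum_sub_distrib]
  apply Finset.sum_eq_zero
  intro ij hij
  rw [Finset.HasAntidiagonal.mem_antidiagonal] at hij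
  have h := (PowerSeries.X_pow_dvd_iff.1 (nuP_sub k a ha (PowerSeries.coeff ij.1 b))) ij.2 (by omega)
  rw [map_sub, io, PowerSeries.coeff_map] at h
  exact h

theorem nuM_map_C (a : ℕ) (F : PowerSeries k) :
    nuM k a (PowerSeries.map Polynomial.C F) = io k F := by
  ext1 n
  rw [nuM, coeff_ext, io, PowerSeries.coeff_map, Finset.sum_eq_single (n, 0)]
  · simp [nuP]
  · rintro ⟨i, j⟩ hij hne
    rw [Finset.HasAntidiagonal.mem_antidiagonal] at hij
    dsimp only at hij ⊢
    have hj : j ≠ 0 := by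
      rintro rfl
      apply hne
      simp_all
    rw [PowerSeries.coeff_map]
    simp [nuP, PowerSeries.coeff_C, hj]
  · intro h
    exact absurd (by simp) h

theorem nuM_X (a : ℕ) : nuM k a PowerSeries.X = PowerSeries.X := ext_X _

theorem nuM_CX (a : ℕ) : nuM k a (PowerSeries.C Polynomial.X) = nuW k a := by
  rw [nuM, ext_C]; simp [nuP]

theorem nu0_X : nu0 k PowerSeries.X = PowerSeries.X := ext_X _

theorem nu0_CX : nu0 k (PowerSeries.C Polynomial.X) = - PowerSeries.X := by
  rw [nu0, ext_C]; simp [nu0P]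

theorem nuW_ne_zero (a : ℕ) (ha : 0 < a) : nuW k a ≠ 0 := by
  intro h
  have h3 := nuU_mul_nuE k a ha
  have h4 : (PowerSeries.X : A0 k) = 0 := by
    have : nuW k a * nuU k a = - PowerSeries.X := by
      rw [nuW]
      linear_combination (-PowerSeries.X) * h3
    rw [h, zero_mul] at this
    exact neg_eq_zero.1 this.symm
  exact PowerSeries.X_ne_zero h4

theorem isUnit_nu (a : ℕ) (ha : 0 < a) :
    IsUnit (((iA k).comp (nuM k a)) (PowerSeries.X * PowerSeries.C Polynomial.X)) := by
  rw [isUnit_iff_ne_zero, RingHom.comp_apply, map_mul, nuM_X, nuM_CX]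
  intro h
  have := (iA_injective k) (h.trans (map_zero _).symm)
  exact (mul_ne_zero PowerSeries.X_ne_zero (nuW_ne_zero k a ha)) this

/-- the evaluation homomorphism -/
noncomputable def nu (a : ℕ) (ha : 0 < a) : R2 k →+* Om k :=
  IsLocalization.Away.lift (PowerSeries.X * PowerSeries.C Polynomial.X : Pk k)
    (g := (iA k).comp (nuM k a)) (isUnit_nu k a ha)

theorem nu_alg (a : ℕ) (ha : 0 < a) (b : Pk k) :
    nu k a ha (algebraMap (Pk k) (R2 k) b) = iA k (nuM k a b) :=
  IsLocalization.Away.lift_eq _ _ _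

theorem φ1_alg (b : Pk k) : φ1 k (algebraMap (Pk k) (R1 k) b) = iA k (a1 k b) :=
  IsLocalization.Away.lift_eq _ _ _

theorem iK_alg (F : PowerSeries k) :
    iK k (algebraMap (PowerSeries k) (LaurentSeries k) F) = iA k (io k F) := by
  rw [iK, RingHom.comp_apply, c1, lK_algebraMap, RingHom.comp_apply, φ1_alg]
  congr 1
  ext1 n
  simp [a1, io]

theorem nu_c2 (a : ℕ) (ha : 0 < a) : (nu k a ha).comp (c2 k) = iK k := by
  apply IsLocalization.ringHom_ext (Submonoid.powers (PowerSeries.X : PowerSeries k))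
  ext1 F
  rw [RingHom.comp_apply, RingHom.comp_apply, RingHom.comp_apply, c2, lK_algebraMap,
    RingHom.comp_apply, nu_alg, nuM_map_C, iK_alg]

theorem nu_w2 (a : ℕ) (ha : 0 < a) :
    nu k a ha (w2 k) * (1 - φ1 k (t1 k ^ a * z1 k)) = - φ1 k (t1 k) := by
  rw [w2, nu_alg, nuM_CX, t1, z1, ← map_pow, ← map_mul, φ1_alg, φ1_alg, map_mul, map_pow, a1_X,
    a1_C, Polynomial.toLaurent_X, ← map_one (iA k), ← map_sub, ← map_mul, ← map_neg]
  congr 1
  have h3 := nuU_mul_nuE k a ha
  rw [nuU] at h3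
  rw [nuW]
  linear_combination (-PowerSeries.X) * h3

/-- `v ↦ t w` -/
noncomputable def rh : PowerSeries k →+* Pk k :=
  (PowerSeries.rescale (Polynomial.X : Polynomial k)).comp (PowerSeries.map Polynomial.C)

theorem θ2_alg (F : PowerSeries k) :
    θ2 k (algebraMap (PowerSeries k) (LaurentSeries k) F) = algebraMap (Pk k) (R2 k) (rh k F) := by
  rw [θ2, lK_algebraMap]
  rfl

theorem rh_X : rh k PowerSeries.X = PowerSeries.C Polynomial.X * PowerSeries.X := by
  rw [rh, RingHom.comp_apply, PowerSeries.map_X, PowerSeries.rescale_X]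

end

end HomNu

open HomNu

theorem exists_nu {G k : Type} [Fintype G] [DecidableEq G] [Field k]
    (C : Matrix G G (LaurentSeries k)) (hC : IsUnit C) : ∃ N : ℕ, ∀ B : ℕ, 0 < B →
      ∃ ν : R2 k →+* Om k, ν.comp (c2 k) = iK k ∧
        ν (w2 k) * (1 - φ1 k (t1 k ^ (N + B) * z1 k)) = - φ1 k (t1 k) ∧
        ∀ A2 : Matrix G G (Pk k), IsUnit A2 → ∃ (D0 : Matrix G G (KK k)) (M : Matrix G G (A0 k)),
          IsUnit D0 ∧
          (D0⁻¹).map (iK k) * (A2.map (algebraMap (Pk k) (R2 k)) * C.map (θ2 k)).map ν =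
            (1 + (PowerSeries.X : A0 k) ^ B • M).map (iA k) := by
  classical
  -- common denominator
  obtain ⟨m, P, P', hP, hP'⟩ : ∃ (m : ℕ) (P P' : Matrix G G (PowerSeries k)),
      (∀ i j, algebraMap (PowerSeries k) (LaurentSeries k) (P i j) =
        algebraMap (PowerSeries k) (LaurentSeries k) PowerSeries.X ^ m * C i j) ∧
      (∀ i j, algebraMap (PowerSeries k) (LaurentSeries k) (P' i j) =
        algebraMap (PowerSeries k) (LaurentSeries k) PowerSeries.X ^ m * C⁻¹ i j) := by
    obtain ⟨⟨_, m, rfl⟩, hb⟩ := IsLocalization.exist_integer_multiples_of_finite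
      (Submonoid.powers (PowerSeries.X : PowerSeries k))
      (fun x : Bool × G × G => if x.1 then C x.2.1 x.2.2 else C⁻¹ x.2.1 x.2.2)
    choose f hf using hb
    refine ⟨m, Matrix.of fun i j => f (true, i, j), Matrix.of fun i j => f (false, i, j), ?_, ?_⟩
    · intro i j
      have := hf (true, i, j)
      simpa [Algebra.smul_def] using this
    · intro i j
      have := hf (false, i, j)
      simpa [Algebra.smul_def] using this
  have hCC : C * C⁻¹ = 1 := Matrix.mul_nonsing_inv _ ((Matrix.isUnit_iff_isUnit_det _).1 hC)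
  have hCC' : C⁻¹ * C = 1 := Matrix.nonsing_inv_mul _ ((Matrix.isUnit_iff_isUnit_det _).1 hC)
  have hinj : Function.Injective (algebraMap (PowerSeries k) (LaurentSeries k)) :=
    IsFractionRing.injective _ _
  have hPm : P.map (algebraMap (PowerSeries k) (LaurentSeries k)) =
      (algebraMap (PowerSeries k) (LaurentSeries k) PowerSeries.X ^ m) • C := by
    ext1 i j
    simpa using hP i j
  have hPm' : P'.map (algebraMap (PowerSeries k) (LaurentSeries k)) =
      (algebraMap (PowerSeries k) (LaurentSeries k) PowerSeries.X ^ m) • C⁻¹ := by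
    ext1 i j
    simpa using hP' i j
  have hPP : P * P' = (PowerSeries.X : PowerSeries k) ^ (2 * m) • (1 : Matrix G G (PowerSeries k)) := by
    apply Matrix.map_injective hinj
    beta_reduce
    rw [Matrix.map_mul, hPm, hPm', Matrix.smul_mul, Matrix.mul_smul, hCC, smul_smul,
      ← pow_add, ← two_mul]
    ext1 i j
    simp only [Matrix.smul_apply, Matrix.map_apply, smul_eq_mul, map_mul, map_pow, Matrix.one_apply]
    split_ifs <;> simp
  have hPP' : P' * P = (PowerSeries.X : PowerSeries k) ^ (2 * m) • (1 : Matrix G G (PowerSeries k)) := by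
    apply Matrix.map_injective hinj
    beta_reduce
    rw [Matrix.map_mul, hPm, hPm', Matrix.smul_mul, Matrix.mul_smul, hCC', smul_smul,
      ← pow_add, ← two_mul]
    ext1 i j
    simp only [Matrix.smul_apply, Matrix.map_apply, smul_eq_mul, map_mul, map_pow, Matrix.one_apply]
    split_ifs <;> simp
  refine ⟨4 * m, fun B hB => ?_⟩
  have ha : 0 < 4 * m + B := by omega
  set a : ℕ := 4 * m + B with hadef
  refine ⟨nu k a ha, nu_c2 k a ha, nu_w2 k a ha, ?_⟩
  intro A2 hA2
  obtain ⟨A, rfl⟩ := hA2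
  set e : Pk k := rh k PowerSeries.X with he
  -- the integral matrices
  set D1 : Matrix G G (Pk k) := (A : Matrix G G (Pk k)) * P.map (rh k) with hD1
  set D2 : Matrix G G (Pk k) := P'.map (rh k) * ((A⁻¹ : (Matrix G G (Pk k))ˣ) : Matrix G G (Pk k)) with hD2
  have h21 : D2 * D1 = e ^ (2 * m) • (1 : Matrix G G (Pk k)) := by
    rw [hD1, hD2, Matrix.mul_assoc, ← Matrix.mul_assoc _ (A : Matrix G G (Pk k)), Units.inv_mul,
      Matrix.one_mul, ← Matrix.map_mul, hPP']
    ext1 i j
    simp only [Matrix.smul_apply, Matrix.map_apply, smul_eq_mul, map_mul, map_pow, Matrix.one_apply]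
    split_ifs <;> simp [he]
  have h12 : D1 * D2 = e ^ (2 * m) • (1 : Matrix G G (Pk k)) := by
    rw [hD1, hD2, Matrix.mul_assoc, ← Matrix.mul_assoc (P.map (rh k)), ← Matrix.map_mul, hPP]
    have : ((PowerSeries.X : PowerSeries k) ^ (2 * m) • (1 : Matrix G G (PowerSeries k))).map (rh k) =
        e ^ (2 * m) • (1 : Matrix G G (Pk k)) := by
      ext1 i j
      simp only [Matrix.smul_apply, Matrix.map_apply, smul_eq_mul, map_mul, map_pow, Matrix.one_apply]
      split_ifs <;> simp [he]
    rw [this, Matrix.smul_mul, Matrix.one_mul, Matrix.mul_smul, Units.mul_inv]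
  -- scalars
  have hn0e : io k (nu0 k e) = - PowerSeries.X ^ 2 := by
    rw [he, rh_X, map_mul, nu0_X, nu0_CX]
    simp [io, pow_two]
  have hn0e' : nu0 k e = - PowerSeries.X ^ 2 := by
    rw [he, rh_X, map_mul, nu0_X, nu0_CX]
    ring
  have hmue : nuM k a e = - PowerSeries.X ^ 2 * nuE k a := by
    rw [he, rh_X, map_mul, nuM_X, nuM_CX, nuW]
    ring
  have hUE := nuU_mul_nuE k a ha
  set s : KK k := algebraMap (PowerSeries k) (LaurentSeries k) (nu0 k e) with hs
  have hs0 : s ≠ 0 := by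
    rw [hs, hn0e']
    intro h
    have := hinj (h.trans (map_zero _).symm)
    rw [neg_eq_zero] at this
    exact pow_ne_zero 2 PowerSeries.X_ne_zero this
  set D0 : Matrix G G (KK k) := (s ^ m)⁻¹ • D1.map ((algebraMap (PowerSeries k) (LaurentSeries k)).comp (nu0 k))
    with hD0
  set D0' : Matrix G G (KK k) := (s ^ m)⁻¹ • D2.map ((algebraMap (PowerSeries k) (LaurentSeries k)).comp (nu0 k))
    with hD0'
  have hmul : D0 * D0' = 1 := by
    rw [hD0, hD0', Matrix.smul_mul, Matrix.mul_smul, ← Matrix.map_mul, h12, smul_smul]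
    have : (e ^ (2 * m) • (1 : Matrix G G (Pk k))).map
        ((algebraMap (PowerSeries k) (LaurentSeries k)).comp (nu0 k)) =
        s ^ (2 * m) • (1 : Matrix G G (KK k)) := by
      ext1 i j
      simp only [Matrix.smul_apply, Matrix.map_apply, smul_eq_mul, map_mul, map_pow, Matrix.one_apply,
        RingHom.comp_apply]
      split_ifs <;> simp [hs]
    rw [this, smul_smul]
    have h1 : (s ^ m)⁻¹ * (s ^ m)⁻¹ * s ^ (2 * m) = 1 := by
      rw [two_mul, pow_add]
      field_simp
    rw [h1, one_smul]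
  have hinv : D0⁻¹ = D0' := Matrix.inv_eq_right_inv hmul
  have hunit : IsUnit D0 := (Matrix.isUnit_iff_isUnit_det _).2 (Matrix.isUnit_det_of_right_inverse hmul)
  -- the error matrix
  have hS : ∃ S : Matrix G G (A0 k), D1.map (nuM k a) =
      D1.map ((io k).comp (nu0 k)) + (PowerSeries.X : A0 k) ^ a • S := by
    choose f hf using fun (i j : G) => nuM_sub k a ha (D1 i j)
    refine ⟨Matrix.of f, ?_⟩
    ext1 i j
    simp only [Matrix.map_apply, Matrix.add_apply, Matrix.smul_apply, Matrix.of_apply, smul_eq_mul,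
      RingHom.comp_apply]
    rw [← hf i j]
    ring
  obtain ⟨S, hS⟩ := hS
  obtain ⟨r, hr⟩ : ∃ r : A0 k, nuU k a ^ m = 1 + PowerSeries.X ^ B * r := by
    have h1 : nuU k a - 1 ∣ nuU k a ^ m - 1 := sub_one_dvd_pow_sub_one _ _
    obtain ⟨c, hc⟩ := h1
    refine ⟨- PowerSeries.X ^ (4 * m) * PowerSeries.C (LaurentPolynomial.T 1) * c, ?_⟩
    have h2 : nuU k a ^ m = 1 + (nuU k a - 1) * c := by rw [← hc]; ring
    rw [h2, nuU, hadef, pow_add]
    ring
  set M1 : Matrix G G (A0 k) := D2.map ((io k).comp (nu0 k)) * S with hM1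
  refine ⟨D0, r • 1 + M1 + (r * PowerSeries.X ^ B) • M1, hunit, ?_⟩
  -- the product over `A0`
  have hprod : D2.map ((io k).comp (nu0 k)) * D1.map (nuM k a) =
      (PowerSeries.X : A0 k) ^ (4 * m) • (1 + (PowerSeries.X : A0 k) ^ B • M1) := by
    rw [hS, Matrix.mul_add, ← Matrix.map_mul, h21, Matrix.mul_smul, ← hM1]
    have : (e ^ (2 * m) • (1 : Matrix G G (Pk k))).map ((io k).comp (nu0 k)) =
        (PowerSeries.X : A0 k) ^ (4 * m) • (1 : Matrix G G (A0 k)) := by
      have h3 : (io k (nu0 k e)) ^ (2 * m) = PowerSeries.X ^ (4 * m) := by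
        rw [hn0e, pow_mul, neg_pow, pow_mul]
        ring
      ext1 i j
      simp only [Matrix.smul_apply, Matrix.map_apply, smul_eq_mul, map_mul, map_pow, Matrix.one_apply,
        RingHom.comp_apply]
      rw [h3]
      split_ifs <;> simp
    rw [this, smul_add, smul_smul, ← pow_add]
  have hone : (1 + (PowerSeries.X : A0 k) ^ B • (r • 1 + M1 + (r * PowerSeries.X ^ B) • M1) :
      Matrix G G (A0 k)) = (nuU k a ^ m) • (1 + (PowerSeries.X : A0 k) ^ B • M1) := by
    rw [hr]
    ext1 i j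
    simp only [Matrix.add_apply, Matrix.smul_apply, smul_eq_mul]
    ring
  rw [hone, hinv, hD0']
  -- the left factor
  have hleft : ((s ^ m)⁻¹ • D2.map ((algebraMap (PowerSeries k) (LaurentSeries k)).comp (nu0 k))).map
      (iK k) = (iA k (io k (nu0 k e)) ^ m)⁻¹ • (D2.map ((io k).comp (nu0 k))).map (iA k) := by
    ext1 i j
    simp only [Matrix.smul_apply, Matrix.map_apply, smul_eq_mul, map_mul, map_inv₀, map_pow,
      RingHom.comp_apply]
    rw [iK_alg, iK_alg]
  have hW0 : iA k (nuM k a e) ≠ 0 := by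
    rw [hmue]
    intro h
    have h1 := (iA_injective k) (h.trans (map_zero _).symm)
    have h2 : nuE k a ≠ 0 := by
      intro h0
      rw [h0, mul_zero] at hUE
      exact zero_ne_one hUE
    exact (mul_ne_zero (neg_ne_zero.2 (pow_ne_zero 2 PowerSeries.X_ne_zero)) h2) h1
  have hE0 : iA k (io k (nu0 k e)) ≠ 0 := by
    rw [hn0e]
    intro h
    have h1 := (iA_injective k) (h.trans (map_zero _).symm)
    exact (neg_ne_zero.2 (pow_ne_zero 2 PowerSeries.X_ne_zero)) h1
  have hright : ((A : Matrix G G (Pk k)).map (algebraMap (Pk k) (R2 k)) * C.map (θ2 k)).map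
      (nu k a ha) = (iA k (nuM k a e) ^ m)⁻¹ • (D1.map (nuM k a)).map (iA k) := by
    have h1 : algebraMap (Pk k) (R2 k) e ^ m • (C.map (θ2 k)) =
        (P.map (rh k)).map (algebraMap (Pk k) (R2 k)) := by
      ext1 i j
      simp only [Matrix.smul_apply, Matrix.map_apply, smul_eq_mul]
      rw [← θ2_alg k (P i j), hP i j, map_mul, map_pow, θ2_alg]
    have h2 : algebraMap (Pk k) (R2 k) e ^ m •
        ((A : Matrix G G (Pk k)).map (algebraMap (Pk k) (R2 k)) * C.map (θ2 k)) =
        D1.map (algebraMap (Pk k) (R2 k)) := by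
      rw [hD1, Matrix.map_mul, ← h1, Matrix.mul_smul]
    have h3 : (iA k (nuM k a e) ^ m) • ((A : Matrix G G (Pk k)).map (algebraMap (Pk k) (R2 k)) *
        C.map (θ2 k)).map (nu k a ha) = (D1.map (nuM k a)).map (iA k) := by
      have h4 := congrArg (fun Z : Matrix G G (R2 k) => Z.map (nu k a ha)) h2
      have h5 : (D1.map (algebraMap (Pk k) (R2 k))).map (nu k a ha) = (D1.map (nuM k a)).map (iA k) := by
        ext1 i j
        simp only [Matrix.map_apply]
        rw [nu_alg]
      rw [h5] at h4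
      rw [← h4]
      ext1 i j
      simp only [Matrix.smul_apply, Matrix.map_apply, smul_eq_mul, map_mul, map_pow]
      rw [nu_alg]
    rw [← h3, smul_smul, inv_mul_cancel₀ (pow_ne_zero _ hW0), one_smul]
  rw [hleft, hright, Matrix.smul_mul, Matrix.mul_smul, ← Matrix.map_mul, hprod, smul_smul]
  have hsc : (iA k (io k (nu0 k e)) ^ m)⁻¹ * (iA k (nuM k a e) ^ m)⁻¹ * iA k (PowerSeries.X ^ (4 * m)) =
      iA k (nuU k a ^ m) := by
    rw [← mul_inv, ← map_pow (iA k), ← map_pow (iA k), ← map_mul]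
    have hne : iA k (io k (nu0 k e) ^ m * nuM k a e ^ m) ≠ 0 := by
      rw [map_mul, map_pow, map_pow]
      exact mul_ne_zero (pow_ne_zero _ hE0) (pow_ne_zero _ hW0)
    rw [inv_mul_eq_iff_eq_mul₀ hne, ← map_mul]
    congr 1
    rw [hn0e, hmue, ← mul_pow, ← mul_pow]
    have h1 : (-PowerSeries.X ^ 2 * (-PowerSeries.X ^ 2 * nuE k a) * nuU k a : A0 k) =
        PowerSeries.X ^ 4 := by
      linear_combination (PowerSeries.X ^ 4) * hUE
    rw [h1, pow_mul]
  ext1 i j
  simp only [Matrix.smul_apply, Matrix.map_apply, smul_eq_mul, map_mul]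
  rw [← hsc]
  ring

end Pool.Agent.Helper54.FP
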